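import Mathlib
import Pool.Agent.Q275.AltSum

/-!
MP_e5500d_nt, Q1 and Q2: the alternating sum `A n` is divisible by `n` for every
positive integer `n`, and `A p ≡ 2 p (-1)^((p+1)/2)` modulo `p ^ 2` for every odd prime `p`.
-/

namespace Pool.Agent.Results.MP_e5500d_nt.BothCongruences

open Finset Q275.AltSum

/-- `C(p-1,k) ≡ (-1)^k` modulo a prime `p`, for `k ≤ p-1`. -/
lemma choose_pred {p : ℕ} (hp : p.Prime) (k : ℕ) (hk : k < p) :
    (((p - 1).choose k : ℕ) : ZMod p) = (-1) ^ k := by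
  induction k with
  | zero => simp
  | succ k ih =>
    have h1 := ih (by omega)
    have h2 : p.choose (k + 1) = (p - 1).choose k + (p - 1).choose (k + 1) := by
      obtain ⟨q, rfl⟩ : ∃ q, p = q + 1 := ⟨p - 1, by omega⟩
      rw [Nat.choose_succ_succ]
      simp
    have h3 : ((p.choose (k + 1) : ℕ) : ZMod p) = 0 := by
      rw [ZMod.natCast_eq_zero_iff]
      exact hp.dvd_choose_self (by omega) hk
    rw [h2, Nat.cast_add, h1] at h3
    rw [pow_succ]
    linear_combination h3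

lemma choose_pred_pred {p h : ℕ} (hp : p.Prime) (hh : p = 2 * h + 1) (h1 : 1 ≤ h) :
    (((p - 2).choose h : ℕ) : ZMod p) = - ((-1) ^ h * (h : ZMod p)) := by
  have e1 := choose_pred hp h (by omega)
  -- (p-1) * C(p-2,h) = C(p-1,h) * (p-1-h)
  have e2 : (p - 1) * (p - 2).choose h = (p - 1).choose h * (p - 1 - h) := by
    have h4 := Nat.choose_mul_succ_eq (p - 2) h
    have h5 : p - 2 + 1 = p - 1 := by omega
    rw [h5] at h4
    rw [mul_comm]
    exact h4
  have e3 : (((p - 1 : ℕ) : ZMod p)) = -1 := by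
    have : (((p - 1 + 1 : ℕ)) : ZMod p) = 0 := by
      rw [show p - 1 + 1 = p by omega]; exact ZMod.natCast_self p
    push_cast at this
    linear_combination this
  have e4 : p - 1 - h = h := by omega
  rw [e4] at e2
  have e5 : (((p - 1 : ℕ) : ZMod p)) * (((p - 2).choose h : ℕ) : ZMod p)
      = (((p - 1).choose h : ℕ) : ZMod p) * (h : ZMod p) := by
    exact_mod_cast congrArg (fun x : ℕ => (x : ZMod p)) e2
  rw [e3, e1] at e5
  linear_combination -e5

/-- Only the middle term survives modulo `p`. -/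
lemma c_mod {p h : ℕ} (hp : p.Prime) (hh : p = 2 * h + 1) (a : ℤ) (N : ℕ) (hN : N + 1 ≤ p)
    (hhN : h ≤ N) (hsmall : ∀ k : ℕ, k < h → (k : ℤ) < (N : ℤ) - k - a) :
    ((c a N : ℤ) : ZMod p) =
      (((N.choose h : ℕ) : ZMod p)) * ((binZ h ((N : ℤ) - h - a) : ℤ) : ZMod p) := by
  unfold c
  rw [Int.cast_sum, Finset.sum_eq_single h]
  · have e1 : (((2 * h).choose h : ℕ) : ZMod p) = (-1) ^ h := by
      have := choose_pred hp h (by omega)
      rwa [show p - 1 = 2 * h by omega] at this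
    push_cast
    rw [e1]
    have e2 : ((-1 : ZMod p)) ^ h * (-1) ^ h = 1 := by
      rw [← mul_pow]; simp
    rw [e2]
    ring
  · intro k hk hkh
    rw [Finset.mem_range] at hk
    rcases lt_or_gt_of_ne hkh with h1 | h1
    · rw [binZ_large k (hsmall k h1)]
      simp
    · have h2 : p ∣ (2 * k).choose k := by
        rw [two_mul]
        exact hp.dvd_choose_add (by omega) (by omega) (by omega)
      have h3 : (((2 * k).choose k : ℕ) : ZMod p) = 0 := by
        rw [ZMod.natCast_eq_zero_iff]; exact h2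
      push_cast
      rw [h3]
      ring
  · intro hnot
    exact absurd (Finset.mem_range.mpr (by omega)) hnot

lemma b_mod {p : ℕ} (hp : p.Prime) (h2 : p ≠ 2) :
    ((b p : ℤ) : ZMod p) = 2 * (-1) ^ ((p - 1) / 2) := by
  obtain ⟨h, hh⟩ : ∃ h, p = 2 * h + 1 := by
    rcases hp.eq_two_or_odd' with h | h
    · exact absurd h h2
    · exact h
  have hp2 := hp.two_le
  have h1 : 1 ≤ h := by omega
  have hb : b p = c 0 (p - 1) - c (-1) (p - 1) - 6 * c 1 (p - 1) + 8 * c 0 (p - 2) := by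
    obtain ⟨q, rfl⟩ : ∃ q, p = q + 2 := ⟨p - 2, by omega⟩
    rfl
  have hdiv : (p - 1) / 2 = h := by omega
  have k1 : ((c 0 (p - 1) : ℤ) : ZMod p) = (-1) ^ h := by
    rw [c_mod hp hh 0 (p - 1) (by omega) (by omega) (by intro k hk; omega),
      choose_pred hp h (by omega)]
    rw [show (((p - 1 : ℕ) : ℤ) - (h : ℤ) - 0) = ((h : ℕ) : ℤ) by omega, binZ_nat]
    simp
  have k2 : ((c (-1) (p - 1) : ℤ) : ZMod p) = 0 := by
    rw [c_mod hp hh (-1) (p - 1) (by omega) (by omega) (by intro k hk; omega),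
      binZ_large h (by omega)]
    simp
  have k3 : ((c 1 (p - 1) : ℤ) : ZMod p) = (-1) ^ h * (h : ZMod p) := by
    rw [c_mod hp hh 1 (p - 1) (by omega) (by omega) (by intro k hk; omega),
      choose_pred hp h (by omega)]
    rw [show (((p - 1 : ℕ) : ℤ) - (h : ℤ) - 1) = ((h - 1 : ℕ) : ℤ) by omega, binZ_nat]
    rw [show h.choose (h - 1) = h by
      obtain ⟨g, rfl⟩ : ∃ g, h = g + 1 := ⟨h - 1, by omega⟩
      simp]
    simp
  have k4 : ((c 0 (p - 2) : ℤ) : ZMod p) = - ((-1) ^ h * (h : ZMod p) ^ 2) := by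
    rw [c_mod hp hh 0 (p - 2) (by omega) (by omega) (by intro k hk; omega),
      choose_pred_pred hp hh h1]
    rw [show (((p - 2 : ℕ) : ℤ) - (h : ℤ) - 0) = ((h - 1 : ℕ) : ℤ) by omega, binZ_nat]
    rw [show h.choose (h - 1) = h by
      obtain ⟨g, rfl⟩ : ∃ g, h = g + 1 := ⟨h - 1, by omega⟩
      simp]
    push_cast
    ring
  have k5 : (2 * (h : ZMod p) + 1) = 0 := by
    have : ((p : ℕ) : ZMod p) = 0 := ZMod.natCast_self p
    have h6 : (((2 * h + 1 : ℕ)) : ZMod p) = 0 := by rw [← hh]; exact this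
    push_cast at h6
    exact h6
  rw [hb, hdiv]
  push_cast
  rw [k1, k2, k3, k4]
  linear_combination (-(4 * (h : ZMod p) + 1) * (-1) ^ h) * k5

/-- MP_e5500d_nt, both parts: `n ∣ A n` for every positive integer `n`, and
`A p ≡ 2 p (-1)^((p+1)/2) (mod p ^ 2)` for every odd prime `p`. -/
theorem result :
    (∀ n : ℕ, 1 ≤ n → ∃ z : ℤ, A n = (n : ℚ) * (z : ℚ)) ∧
    (∀ p : ℕ, p.Prime → p ≠ 2 →
      ∃ z : ℤ, A p = 2 * (p : ℚ) * (-1) ^ ((p + 1) / 2) + (p : ℚ) ^ 2 * (z : ℚ)) := by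
  refine ⟨fun n _ => ⟨(-1) ^ n * b n, ?_⟩, fun p hp h2 => ?_⟩
  · rw [A_eq]
    push_cast
    ring
  · have h1 := b_mod hp h2
    have h3 : ((b p - 2 * (-1) ^ ((p - 1) / 2) : ℤ) : ZMod p) = 0 := by
      push_cast
      rw [h1]
      ring
    rw [ZMod.intCast_zmod_eq_zero_iff_dvd] at h3
    obtain ⟨z, hz⟩ := h3
    refine ⟨-z, ?_⟩
    have hodd : Odd p := by
      rcases hp.eq_two_or_odd' with h | h
      · exact absurd h h2
      · exact h
    have h4 : (p + 1) / 2 = (p - 1) / 2 + 1 := by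
      obtain ⟨h, hh⟩ := hodd
      omega
    have h5 : (b p : ℚ) = 2 * (-1) ^ ((p - 1) / 2) + (p : ℚ) * (z : ℚ) := by
      have h6 : b p = 2 * (-1) ^ ((p - 1) / 2) + (p : ℤ) * z := by linear_combination hz
      rw [h6]
      push_cast
      ring
    rw [A_eq, h5, h4, hodd.neg_one_pow, pow_succ]
    push_cast
    ring

end Pool.Agent.Results.MP_e5500d_nt.BothCongruences
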